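import Pool.Agent.Helper22_LLG.Stmt

/-!
# Squad LLG, module SPR1: one percolation of rate `3 / k`
-/

set_option autoImplicit false

namespace Pool.Agent.LLG.H39

open SimpleGraph Pool.Agent.LAG Pool.Agent.LLG

theorem av_mono {Ω : Type} [Fintype Ω] {f g : Ω → ℝ} (h : ∀ ω, f ω ≤ g ω) : av f ≤ av g := by
  unfold av
  exact div_le_div_of_nonneg_right (Finset.sum_le_sum fun ω _ => h ω) (Nat.cast_nonneg _)

theorem av_const {Ω : Type} [Fintype Ω] [Nonempty Ω] (c : ℝ) : av (fun _ : Ω => c) = c := by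
  unfold av
  rw [Finset.sum_const, Finset.card_univ, nsmul_eq_mul]
  have h : (Fintype.card Ω : ℝ) ≠ 0 := Nat.cast_ne_zero.2 Fintype.card_ne_zero
  field_simp

theorem av_add {Ω : Type} [Fintype Ω] (f g : Ω → ℝ) : av (fun ω => f ω + g ω) = av f + av g := by
  unfold av
  rw [Finset.sum_add_distrib, add_div]

theorem av_smul {Ω : Type} [Fintype Ω] (c : ℝ) (f : Ω → ℝ) : av (fun ω => c * f ω) = c * av f := by
  unfold av
  rw [← Finset.mul_sum, mul_div_assoc]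

/-- SPR1 -/
theorem spr1 (hM : MergeStmt) (hU : UnmStmt) : Spr1Stmt := by
  intro X _ _ Γ O k m hk hm hdeg hsp hO
  haveI : NeZero k := ⟨by omega⟩
  have h1 : ∀ ω : Sym2 X → Fin k, (cc (O ⊔ opn Γ ω 3) : ℝ) ≤
      1 / 2 * (cc O : ℝ) + 1 / 2 * ((unm O (O ⊔ opn Γ ω 3)).ncard : ℝ) := by
    intro ω
    have h := hM X O (O ⊔ opn Γ ω 3) le_sup_left
    have h' : (2 : ℝ) * (cc (O ⊔ opn Γ ω 3) : ℝ) ≤ (cc O : ℝ) +
      ((unm O (O ⊔ opn Γ ω 3)).ncard : ℝ) := by exact_mod_cast h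
    linarith
  refine (av_mono h1).trans ?_
  rw [av_add, av_const, av_smul]
  have h2 := hU X Γ O k m hk hm hdeg hsp hO
  linarith

end Pool.Agent.LLG.H39
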